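import Pool.Agent.U136.DS.Stm
import Pool.Agent.U527.RT.APR2

set_option autoImplicit false

/-! (APRD) A priori bounds for the truncated systems with a dispersive term. -/

namespace Pool.Agent.U741.DS

open Pool.Agent.N983.RT Pool.Agent.U136.DS Pool.Agent.U527.RT Set

theorem arr_one : Arr one where
  swap12 _ _ _ := rfl
  swap23 _ _ _ := rfl
  neg _ _ _ := rfl
  le _ _ _ := by simp [one]

section Energy

variable {g : Wv → Wv → Wv → ℝ} {ν : ℝ} {lam : Wv → ℝ} {u : ℝ → Fld}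

theorem deriv_termD (hu : IsSolD g ν lam u) (m : Wv) (j : Fin 3) {t : ℝ} (ht : 0 ≤ t) :
    HasDerivWithinAt (fun t => ‖u t m j‖ ^ 2)
      (2 * ((starRingEnd ℂ) (u t m j) * rhs g ν 1 (u t) m j).re) (Ici 0) t := by
  by_cases hm : m = 0
  · subst hm
    have h0 : ∀ t, 0 ≤ t → u t 0 j = 0 := fun t ht => by rw [(hu.adm t ht).zero]; rfl
    have h1 : HasDerivWithinAt (fun _ : ℝ => (0 : ℝ)) 0 (Ici 0) t := hasDerivWithinAt_const _ _ _
    have h2 : 2 * ((starRingEnd ℂ) (u t 0 j) * rhs g ν 1 (u t) 0 j).re = 0 := by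
      rw [h0 t ht]
      simp
    rw [h2]
    refine h1.congr (fun s hs => ?_) ?_
    · simp [h0 s hs]
    · simp [h0 t ht]
  · have h1 := (hu.eqn t ht m hm j).norm_sq
    rw [Complex.inner, mul_comm (rhsD g ν lam (u t) m j)] at h1
    have h2 : ((starRingEnd ℂ) (u t m j) * rhsD g ν lam (u t) m j).re
        = ((starRingEnd ℂ) (u t m j) * rhs g ν 1 (u t) m j).re := by
      unfold rhsD
      rw [mul_sub, Complex.sub_re]
      have h3 : (starRingEnd ℂ) (u t m j) * (Complex.I * (lam m : ℂ) * u t m j)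
          = Complex.I * ((lam m * ‖u t m j‖ ^ 2 : ℝ) : ℂ) := by
        have h4 := Complex.conj_mul' (u t m j)
        push_cast
        linear_combination (Complex.I * (lam m : ℂ)) * h4
      rw [h3, Complex.I_mul_re, Complex.ofReal_im, neg_zero, sub_zero]
    rw [h2] at h1
    exact h1

theorem deriv_EnD (hu : IsSolD g ν lam u) (s n : ℕ) {t : ℝ} (ht : 0 ≤ t) :
    HasDerivWithinAt (fun t => En s n (u t))
      (-2 * ν * Er ((s : ℝ) + 1) n (u t) + 2 * flux g s n (u t)) (Ici 0) t := by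
  have h1 : HasDerivWithinAt (fun t => En s n (u t))
      (∑ m ∈ cub n, nsq m ^ s * ∑ j, 2 * ((starRingEnd ℂ) (u t m j) * rhs g ν 1 (u t) m j).re)
      (Ici 0) t := by
    unfold En
    exact HasDerivWithinAt.fun_sum fun m _ => (HasDerivWithinAt.fun_sum fun j _ =>
      deriv_termD hu m j ht).const_mul _
  have h2 : ∑ m ∈ cub n, nsq m ^ s * ∑ j, 2 * ((starRingEnd ℂ) (u t m j) *
      rhs g ν 1 (u t) m j).re = -2 * ν * Er ((s : ℝ) + 1) n (u t) + 2 * flux g s n (u t) := by
    unfold Er flux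
    rw [Complex.re_sum, Finset.mul_sum, Finset.mul_sum, ← Finset.sum_add_distrib]
    refine Finset.sum_congr rfl fun m _ => ?_
    rw [Complex.re_sum, Finset.mul_sum, Finset.mul_sum, Finset.mul_sum, Finset.mul_sum,
      ← Finset.sum_add_distrib]
    refine Finset.sum_congr rfl fun j _ => ?_
    by_cases hm : m = 0
    · subst hm
      have h0 : u t 0 j = 0 := by rw [(hu.adm t ht).zero]; rfl
      rw [h0]
      simp
    · have h3 : 0 < nsq m := lt_of_lt_of_le one_pos (one_le_nsq hm)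
      have h4 : nsq m ^ ((s : ℝ) + 1) = nsq m ^ s * nsq m ^ (1 : ℝ) := by
        rw [Real.rpow_add h3, Real.rpow_natCast]
      have h5 : ((nsq m : ℂ) ^ s * ((starRingEnd ℂ) (u t m j) *
          (-Complex.I * prj m (conv g (u t) m) j))).re = nsq m ^ s * ((starRingEnd ℂ) (u t m j) *
          (-(Complex.I * prj m (conv g (u t) m) j))).re := by
        rw [← Complex.ofReal_pow, Complex.re_ofReal_mul]
        ring_nf
      rw [h4, h5]
      unfold rhs
      rw [re_term]
      ring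
  rw [h2] at h1
  exact h1

end Energy

/-- The nonlinear term is the sum of its near-resonant part and the other one. -/
theorem form_one (lam : Wv → ℝ) (c₁ τ : ℝ) (s n : ℕ) {u : Fld} (hu : u 0 = 0) :
    form one s n u = form (near lam c₁ τ) s n u + form (far lam c₁ τ) s n u := by
  unfold form Tri
  simp only [← Finset.sum_add_distrib]
  refine Finset.sum_congr rfl fun i _ => Finset.sum_congr rfl fun j _ =>
    Finset.sum_congr rfl fun k _ => Finset.sum_congr rfl fun l _ => ?_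
  by_cases hk : k = 0
  · subst hk
    simp [hu]
  by_cases hl : l = 0
  · subst hl
    simp [hu]
  by_cases hkl : -(k + l) = 0
  · rw [hkl]
    simp [hu]
  have h1 : near lam c₁ τ k l (-(k + l)) + far lam c₁ τ k l (-(k + l)) = 1 := by
    unfold near far
    by_cases h : |lam k + lam l + lam (-(k + l))| < c₁ * mx k l (-(k + l)) ^ (τ / 2)
    · rw [if_pos ⟨hk, hl, hkl, h⟩, if_neg (fun h' => absurd h (not_lt.2 h'.2.2.2))]
      norm_num
    · rw [if_neg (fun h' => h h'.2.2.2), if_pos ⟨hk, hl, hkl, not_lt.1 h⟩]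
      norm_num
  have h2 : one k l (-(k + l)) = near lam c₁ τ k l (-(k + l)) + far lam c₁ τ k l (-(k + l)) := by
    rw [h1]
    rfl
  rw [h2]
  push_cast
  ring

/-- A function with bounded derivative. -/
theorem lin {f f' : ℝ → ℝ} {c : ℝ} (hf : ∀ t, 0 ≤ t → HasDerivWithinAt f (f' t) (Ici 0) t)
    (h : ∀ t, 0 ≤ t → f' t ≤ c) (t : ℝ) (ht : 0 ≤ t) : f t ≤ f 0 + c * t := by
  have h1 := gron (f := fun t => f t - c * t) (f' := fun t => f' t - c) (c := 0) (fun t ht => by
    have h2 : HasDerivWithinAt (fun t : ℝ => c * t) c (Ici 0) t := by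
      simpa using (hasDerivWithinAt_id t (Ici 0)).const_mul c
    exact (hf t ht).sub h2) (fun t ht => by
    have := h t ht
    simp only [zero_mul]
    linarith) t ht
  simp only [zero_mul, Real.exp_zero, mul_one, mul_zero, sub_zero] at h1
  linarith

theorem En_one_le (n : ℕ) (u : Fld) : En 1 n u ≤ En 0 n u + En 2 n u := by
  unfold En
  rw [← Finset.sum_add_distrib]
  refine Finset.sum_le_sum fun k _ => ?_
  have h1 : nsq k ^ 1 ≤ nsq k ^ 0 + nsq k ^ 2 := by
    nlinarith [sq_nonneg (nsq k - 1), nsq_nonneg k]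
  have h2 : 0 ≤ ∑ i, ‖u k i‖ ^ 2 := Finset.sum_nonneg fun i _ => by positivity
  calc nsq k ^ 1 * ∑ i, ‖u k i‖ ^ 2 ≤ (nsq k ^ 0 + nsq k ^ 2) * ∑ i, ‖u k i‖ ^ 2 :=
        mul_le_mul_of_nonneg_right h1 h2
    _ = _ := by ring

theorem re_I_le (z : ℂ) : (-Complex.I * z).re ≤ ‖z‖ := by
  refine (Complex.re_le_norm _).trans ?_
  simp

/-- (APRD) a priori bounds for the truncated systems -/
theorem t_APRD : S_APRD := by
  intro hS hA ν lam c₁ τ hν _ hc₁ hQ hDQ u₀ hadm hr s T
  obtain ⟨M0, hM0, hI0⟩ := init_bound hS hr 0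
  -- the energy
  have hE0 : ∀ (n : ℕ) (u : ℝ → Fld), IsSolD (cutg n one) ν lam u → u 0 = cut n u₀ →
      (∀ t, 0 ≤ t → ∀ k, k ∉ cub n → u t k = 0) → ∀ t, 0 ≤ t → En 0 n (u t) ≤ M0 := by
    intro n u hu h0 hsupp t ht
    have h1 := gron (c := 0) (fun t ht => deriv_EnD hu 0 n ht) (fun t ht => by
      rw [(hA one n (u t) arr_one (hu.adm t ht) (hsupp t ht)).2]
      have h2 := Er_nonneg (((0 : ℕ) : ℝ) + 1) n (u t)
      nlinarith [mul_nonneg hν.le h2]) t ht
    rw [zero_mul, Real.exp_zero, mul_one, h0] at h1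
    exact h1.trans (hI0 n)
  -- the other norms
  have hE2 : ∀ s : ℕ, 2 ≤ s → ∃ C : ℝ, ∀ (n : ℕ) (u : ℝ → Fld),
      IsSolD (cutg n one) ν lam u → u 0 = cut n u₀ →
      (∀ t, 0 ≤ t → ∀ k, k ∉ cub n → u t k = 0) → ∀ t, 0 ≤ t → t ≤ T → En s n (u t) ≤ C := by
    intro s hs
    obtain ⟨M, hM, hI⟩ := init_bound hS hr s
    obtain ⟨C1, hC1⟩ := hQ s hs M0 (ν / 4) (by positivity)
    obtain ⟨C2, hC2⟩ := hQ s hs M0 (1 / 4) (by norm_num)
    refine ⟨3 * M + 8 * |C2| + 8 * |C1| * T, fun n u hu h0 hsupp t ht htT => ?_⟩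
    have hd : ∀ t, 0 ≤ t → HasDerivWithinAt
        (fun t => En s n (u t) - 2 * (form (hnf lam c₁ τ) s n (u t)).re)
        ((-2 * ν * Er ((s : ℝ) + 1) n (u t) + 2 * flux (cutg n one) s n (u t)) -
          2 * (-Complex.I * form (far lam c₁ τ) s n (u t) +
            dform (hnf lam c₁ τ) s n (u t) (rhs (cutg n one) ν 1 (u t))).re) (Ici 0) t := by
      intro t ht
      have h1 := deriv_EnD hu s n ht
      have h2 := hDQ lam c₁ τ ν hc₁ s n u hu hsupp t ht
      have h3 := (Complex.reCLM.hasFDerivAt.comp_hasDerivWithinAt t h2)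
      exact h1.sub (h3.const_mul 2)
    have hb : ∀ t, 0 ≤ t → (-2 * ν * Er ((s : ℝ) + 1) n (u t) +
        2 * flux (cutg n one) s n (u t)) -
          2 * (-Complex.I * form (far lam c₁ τ) s n (u t) +
            dform (hnf lam c₁ τ) s n (u t) (rhs (cutg n one) ν 1 (u t))).re ≤ 4 * |C1| := by
      intro t ht
      have hz := (hu.adm t ht).zero
      rw [(hA one n (u t) arr_one (hu.adm t ht) (hsupp t ht)).1 s, form_one lam c₁ τ s n hz,
        mul_add, Complex.add_re, Complex.add_re]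
      obtain ⟨_, h1, h2⟩ := hC1 n (u t) (hu.adm t ht) (hsupp t ht) (hE0 n u hu h0 hsupp t ht)
      have h3 := re_I_le (form (near lam c₁ τ) s n (u t))
      have h4 : -(dform (hnf lam c₁ τ) s n (u t) (rhs (cutg n one) ν 1 (u t))).re ≤
          ‖dform (hnf lam c₁ τ) s n (u t) (rhs (cutg n one) ν 1 (u t))‖ :=
        (neg_le_abs _).trans (Complex.abs_re_le_norm _)
      have h5 := Er_nonneg ((s : ℝ) + 1) n (u t)
      have h6 := le_abs_self C1
      have h7 : 0 ≤ ν * Er ((s : ℝ) + 1) n (u t) := mul_nonneg hν.le h5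
      linarith
    have h1 := lin hd hb t ht
    have h2 : ∀ t, 0 ≤ t → |(form (hnf lam c₁ τ) s n (u t)).re| ≤
        1 / 4 * En s n (u t) + |C2| := fun t ht =>
      (Complex.abs_re_le_norm _).trans (((hC2 n (u t) (hu.adm t ht) (hsupp t ht)
        (hE0 n u hu h0 hsupp t ht)).1).trans (by have := le_abs_self C2; linarith))
    have h3 := abs_le.1 (h2 t ht)
    have h4 := abs_le.1 (h2 0 le_rfl)
    have h5 : En s n (u 0) ≤ M := by
      rw [h0]
      exact hI n
    have h6 : 4 * |C1| * t ≤ 4 * |C1| * T := mul_le_mul_of_nonneg_left htT (by positivity)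
    linarith [h3.1, h3.2, h4.1, h4.2]
  rcases Nat.lt_or_ge s 2 with h | h
  · interval_cases s
    · exact ⟨M0, fun n u hu h0 hsupp t ht _ => hE0 n u hu h0 hsupp t ht⟩
    · obtain ⟨C, hC⟩ := hE2 2 le_rfl
      refine ⟨M0 + C, fun n u hu h0 hsupp t ht htT => (En_one_le n (u t)).trans ?_⟩
      exact add_le_add (hE0 n u hu h0 hsupp t ht) (hC n u hu h0 hsupp t ht htT)
  · exact hE2 s h

end Pool.Agent.U741.DS
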